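import Mathlib
import Pool.Agent.Lib.MP_efdbfd_co.Final

/-!
MP_efdbfd_co, partial result: weak vertices whose deletion leaves an outerplanar graph of large girth.
-/

namespace Pool.Agent.Retired.MP_efdbfd_co.LargeGirth

open SimpleGraph Pool.Agent.Lib.MP_efdbfd_co

/-- Let `L` be a finite bipartite graph containing `C_{2g}`, `g ≥ 3` odd.  If `L - v` has an edge, is
outerplanar and has girth at least `2 ⌊4g/3⌋`, then `v` is weak. -/
theorem result {W : Type} [Finite W] (L : SimpleGraph W) (hb : L.IsBipartite) (g : ℕ) (v : W)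
    (hg : Odd g) (h3 : 3 ≤ g) (hc : cycleGraph (2 * g) ⊑ L) (h0 : L.induce {v}ᶜ ≠ ⊥)
    (h : Outerplanar (L.induce {v}ᶜ))
    (he : ((2 * (4 * g / 3) : ℕ) : ℕ∞) ≤ (L.induce {v}ᶜ).egirth) : Weak L v :=
  ⟨h0, isLittleO_of_up_low (k := 4 * g / 3 - 1) (by omega) (by omega)
    ((low_odd hg h3).mono hc) (up_of_outer (by omega) (bip_induce hb _) he h)⟩

end Pool.Agent.Retired.MP_efdbfd_co.LargeGirth
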